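import Pool.Agent.helper38.WB.SEL
import Pool.Agent.helper34.WB.BLK
import Pool.Agent.helper52.WB.FRQ
import Pool.Agent.helper52.WB.MAR
import Pool.Agent.helper91.WB.PF

set_option autoImplicit false

/-!
# WB project: the converse direction, one approximation step
-/

namespace Pool.Agent.helper65.WB

open Finset Matrix Filter
open scoped ComplexOrder

open scoped MatrixOrder in
theorem APX_sqrt {W : Type} [Fintype W] (A : Matrix W W ℂ) (hA : A.PosSemidef) :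
    ∃ B : Matrix W W ℂ, A = Bᴴ * B := by
  classical
  obtain ⟨B, hB⟩ := CStarAlgebra.nonneg_iff_eq_star_mul_self.mp hA.nonneg
  exact ⟨B, hB⟩

/-- words and families of blocks -/
theorem APX_sum_blk {D b l k : ℕ} (h : b * l = k + 1) (g : (Fin b → Fin l → Fin D) → ℝ) :
    ∑ x : Fin (k + 1) → Fin D, g (blk h x) = ∑ y : Fin b → Fin l → Fin D, g y := by
  let e : (Fin (k + 1) → Fin D) ≃ (Fin b → Fin l → Fin D) :=
    ((site h).arrowCongr (Equiv.refl (Fin D))).symm.trans (Equiv.curry (Fin b) (Fin l) (Fin D))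
  exact Fintype.sum_equiv e _ _ fun x => rfl

theorem APX_sh_iter {D k : ℕ} (t : ℕ) :
    Function.Bijective (sh^[t] : (Fin (k + 1) → Fin D) → _) := by
  induction t with
  | zero => exact Function.bijective_id
  | succ t ih => rw [Function.iterate_succ]; exact ih.comp sh_bijective

theorem APX_sum_sh {D k : ℕ} (t : ℕ) (g : (Fin (k + 1) → Fin D) → ℝ) :
    ∑ x, g (sh^[t] x) = ∑ x, g x :=
  (Function.Bijective.sum_comp (APX_sh_iter t) g)

theorem APX_freq_sh {D k n : ℕ} (w : Fin n → Fin D) (t : ℕ) (x : Fin (k + 1) → Fin D) :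
    freq w (sh^[t] x) = freq w x := by
  induction t generalizing x with
  | zero => rfl
  | succ t ih => rw [Function.iterate_succ, Function.comp, ih, freq_sh]

theorem APX_baker {D k : ℕ} (U : Matrix (Fin D) (Fin D) ℂ)
    (B : Matrix (Fin (k + 1) → Fin D) (Fin (k + 1) → Fin D) ℂ)
    (hB : ∀ ψ : (Fin (k + 1) → Fin D) → ℂ, B.mulVec ψ = baker U ψ) (t : ℕ)
    (ψ : (Fin (k + 1) → Fin D) → ℂ) : (B ^ t).mulVec ψ = (baker U)^[t] ψ := by
  induction t generalizing ψ with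
  | zero => simp
  | succ t ih =>
    rw [pow_succ, ← mulVec_mulVec, hB, ih, Function.iterate_succ, Function.comp]

theorem APX_cs {W : Type} [Fintype W] (ψ : W → ℂ) (hψ : ∑ x, ‖ψ x‖ ^ 2 = 1) (f : W → ℝ) (δ : ℝ)
    (h : ∑ x, ‖ψ x‖ ^ 2 * f x ^ 2 ≤ δ) : |∑ x, ‖ψ x‖ ^ 2 * f x| ≤ Real.sqrt δ := by
  apply Real.abs_le_sqrt
  have := Finset.sum_mul_sq_le_sq_mul_sq Finset.univ (fun x => ‖ψ x‖) (fun x => ‖ψ x‖ * f x)
  have e1 : ∑ x, ‖ψ x‖ * (‖ψ x‖ * f x) = ∑ x, ‖ψ x‖ ^ 2 * f x :=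
    Finset.sum_congr rfl fun x _ => by ring
  have e2 : ∑ x, (‖ψ x‖ * f x) ^ 2 = ∑ x, ‖ψ x‖ ^ 2 * f x ^ 2 :=
    Finset.sum_congr rfl fun x _ => by ring
  rw [e1, e2, hψ, one_mul] at this
  linarith

theorem approx {D : ℕ} (U : Matrix (Fin D) (Fin D) ℂ)
    (hU : U ∈ Matrix.unitaryGroup (Fin D) ℂ)
    (ρ : ∀ n : ℕ, Matrix (Fin n → Fin D) (Fin n → Fin D) ℂ) (hρ : IsInvState U ρ)
    (n₀ : ℕ) (ε : ℝ) (hε : 0 < ε) :
    ∃ (k : ℕ) (ψ : (Fin (k + 1) → Fin D) → ℂ), n₀ ≤ k ∧ IsEigen U ψ ∧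
      ∀ n, n ≤ n₀ → ∀ w : Fin n → Fin D, |prob ψ w - (ρ n w w).re| ≤ ε := by
  classical
  -- the diagonal entries are probabilities
  have hdn : ∀ n (w : Fin n → Fin D), 0 ≤ (ρ n w w).re := fun n w =>
    (Complex.nonneg_iff.1 ((hρ.pos n).diag_nonneg (i := w))).1
  have hds : ∀ n, ∑ w : Fin n → Fin D, (ρ n w w).re = 1 := by
    intro n
    have := congrArg Complex.re (hρ.trace n)
    rw [Matrix.trace, Complex.re_sum] at this
    simpa using this
  have hd1 : ∀ n (w : Fin n → Fin D), (ρ n w w).re ≤ 1 := by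
    intro n w
    rw [← hds n]
    exact Finset.single_le_sum (f := fun w => (ρ n w w).re) (fun i _ => hdn n i)
      (Finset.mem_univ w)
  -- constants
  let K : ℝ := ∑ n ∈ range (n₀ + 1), ∑ _w : Fin n → Fin D, (2 * (n₀ : ℝ) + 3)
  have hK : 0 ≤ K := by positivity
  obtain ⟨m, hm1, hm2⟩ : ∃ m : ℕ, n₀ + 1 ≤ m ∧ Real.sqrt (K / m) + n₀ / m ≤ ε := by
    have h1 : Tendsto (fun m : ℕ => Real.sqrt (K / m) + n₀ / m) atTop
        (nhds (Real.sqrt 0 + 0)) :=
      ((Real.continuous_sqrt.tendsto _).comp (tendsto_const_div_atTop_nhds_zero_nat K)).add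
        (tendsto_const_div_atTop_nhds_zero_nat (n₀ : ℝ))
    rw [Real.sqrt_zero, add_zero] at h1
    obtain ⟨m, hm⟩ := ((h1.eventually (gt_mem_nhds hε)).and (eventually_ge_atTop (n₀ + 1))).exists
    exact ⟨m, hm.2, hm.1.le⟩
  have hmpos : 0 < m := by omega
  obtain ⟨k, hk⟩ : ∃ k, m * m = k + 1 := ⟨m * m - 1, by
    have : 0 < m * m := Nat.mul_pos hmpos hmpos
    omega⟩
  have hkm : m ≤ k + 1 := by rw [← hk]; exact Nat.le_mul_self m
  -- the block state
  obtain ⟨N, hN⟩ := APX_sqrt _ (hρ.pos m)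
  set M : Matrix (Fin m → Fin D) (Fin m → Fin D) ℂ := Nᴴ with hMdef
  have hM : ρ m = M * Mᴴ := by rw [hMdef, conjTranspose_conjTranspose]; exact hN
  obtain ⟨B, hB, hBψ⟩ := exists_bakerM U hU k
  let L : Matrix (Fin (k + 1) → Fin D) (Fin (k + 1) → Fin D) ℂ :=
    fun y c => ∏ j, M (blk hk y j) (blk hk c j)
  have hLt : ∀ t x c, (B ^ t * L) x c =
      ((baker U)^[t] (fun y => ∏ j, M (blk hk y j) (blk hk c j))) x := by
    intro t x c
    rw [← APX_baker U B hBψ, Matrix.mul_apply]; rfl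
  have hprod : ∀ P : Fin m → (Fin m → Fin D) → ℝ, (∀ j, ∑ u, P j u = 1) →
      ∑ x : Fin (k + 1) → Fin D, ∏ j, P j (blk hk x j) = 1 := by
    intro P hP
    rw [APX_sum_blk hk (fun y => ∏ j, P j (y j))]
    have := Finset.prod_univ_sum (fun _ : Fin m => (Finset.univ : Finset (Fin m → Fin D))) P
    rw [Fintype.piFinset_univ] at this
    rw [← this]
    simp [hP]
  have hL : ∑ x, ∑ c, ‖L x c‖ ^ 2 = 1 := by
    obtain ⟨j₀, P, hP0, hP1, hPj, hPx⟩ := block_diag U hU hk (ρ m) M hM (hρ.trace m) (hρ.inv m) 0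
    simp only [Function.iterate_zero, id] at hPx
    rw [← hprod P hP1]
    exact Finset.sum_congr rfl fun x _ => hPx x
  let V : (Fin (k + 1) → Fin D) → ℝ := fun x =>
    ∑ n ∈ range (n₀ + 1), ∑ w : Fin n → Fin D, (freq w x - (ρ n w w).re) ^ 2
  have hV : ∀ x, 0 ≤ V x := fun x =>
    Finset.sum_nonneg fun n _ => Finset.sum_nonneg fun w _ => sq_nonneg _
  have hVsh : ∀ t x, V (sh^[t] x) = V x := by
    intro t x
    simp only [V, APX_freq_sh]
  have hmR : (0 : ℝ) < m := by exact_mod_cast hmpos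
  have hsel : ∀ t : ℕ, ∑ x, (∑ c, ‖(B ^ t * L) x c‖ ^ 2) * V x ≤ K / m := by
    intro t
    obtain ⟨j₀, P, hP0, hP1, hPj, hPx⟩ := block_diag U hU hk (ρ m) M hM (hρ.trace m) (hρ.inv m) t
    simp only [hLt]
    simp only [hPx]
    have e1 : ∑ x, (∏ j, P j (blk hk (sh^[t] x) j)) * V x =
        ∑ x, (∏ j, P j (blk hk x j)) * V x := by
      rw [← APX_sum_sh t (fun x => (∏ j, P j (blk hk x j)) * V x)]
      exact Finset.sum_congr rfl fun x _ => by rw [hVsh]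
    rw [e1]
    have e2 : ∑ x, (∏ j, P j (blk hk x j)) * V x =
        ∑ n ∈ range (n₀ + 1), ∑ w : Fin n → Fin D,
          ∑ x, (∏ j, P j (blk hk x j)) * (freq w x - (ρ n w w).re) ^ 2 := by
      simp only [V, Finset.mul_sum]
      rw [Finset.sum_comm]
      refine Finset.sum_congr rfl fun n _ => ?_
      rw [Finset.sum_comm]
    rw [e2]
    have e3 : K / m = ∑ n ∈ range (n₀ + 1), ∑ _w : Fin n → Fin D, (2 * (n₀ : ℝ) + 3) / m := by
      simp only [K, Finset.sum_div]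
    rw [e3]
    refine Finset.sum_le_sum fun n hn => Finset.sum_le_sum fun w _ => ?_
    have hn' : n ≤ n₀ := by rw [Finset.mem_range] at hn; omega
    have hnm : n ≤ m := by omega
    refine (freq_lln hk hnm w (ρ n w w).re (hdn n w) (hd1 n w) (fun u => (ρ m u u).re)
      (fun i hi => marginal U ρ hρ n m i hi w) P hP0 hP1 j₀ hPj).trans ?_
    rw [← add_div]
    apply div_le_div_of_nonneg_right _ hmR.le
    have : (n : ℝ) ≤ n₀ := by exact_mod_cast hn'
    linarith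
  obtain ⟨ψ, hψ1, ⟨z, hz⟩, hψV⟩ := select B hB L hL V hV (K / m) hsel
  have heig : IsEigen U ψ := by
    refine ⟨hψ1, z, fun x => ?_⟩
    rw [← hBψ, hz]; rfl
  refine ⟨k, ψ, by omega, heig, fun n hn w => ?_⟩
  have h1 : |∑ x, ‖ψ x‖ ^ 2 * (freq w x - (ρ n w w).re)| ≤ Real.sqrt (K / m) := by
    apply APX_cs ψ hψ1
    refine le_trans ?_ hψV
    refine Finset.sum_le_sum fun x _ => ?_
    apply mul_le_mul_of_nonneg_left _ (sq_nonneg _)
    have g1 : (freq w x - (ρ n w w).re) ^ 2 ≤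
        ∑ w : Fin n → Fin D, (freq w x - (ρ n w w).re) ^ 2 :=
      Finset.single_le_sum (f := fun w : Fin n → Fin D => (freq w x - (ρ n w w).re) ^ 2)
        (fun i _ => sq_nonneg _) (Finset.mem_univ w)
    refine g1.trans ?_
    exact Finset.single_le_sum
      (f := fun n => ∑ w : Fin n → Fin D, (freq w x - (ρ n w w).re) ^ 2)
      (fun i _ => Finset.sum_nonneg fun w _ => sq_nonneg _) (Finset.mem_range.2 (by omega))
  have h2 := prob_freq U hU ψ heig (by omega) w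
  have e : ∑ x, ‖ψ x‖ ^ 2 * (freq w x - (ρ n w w).re) =
      ∑ x, ‖ψ x‖ ^ 2 * freq w x - (ρ n w w).re := by
    simp only [mul_sub, Finset.sum_sub_distrib]
    rw [← Finset.sum_mul, hψ1, one_mul]
  rw [e] at h1
  have h3 : (n : ℝ) / (k + 1) ≤ n₀ / m := by
    have a1 : (n : ℝ) ≤ n₀ := by exact_mod_cast hn
    have a2 : (m : ℝ) ≤ (k : ℝ) + 1 := by exact_mod_cast hkm
    exact div_le_div₀ (Nat.cast_nonneg _) a1 hmR a2
  calc |prob ψ w - (ρ n w w).re| ≤ |prob ψ w - ∑ x, ‖ψ x‖ ^ 2 * freq w x| +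
        |∑ x, ‖ψ x‖ ^ 2 * freq w x - (ρ n w w).re| := abs_sub_le _ _ _
    _ ≤ (n : ℝ) / (k + 1) + Real.sqrt (K / m) := add_le_add h2 h1
    _ ≤ ε := by linarith

end Pool.Agent.helper65.WB
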