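import Pool.Agent.helper75.WB.SpecI

/-!
# MP_bb5cc8_nt, row wb:I.ILN
-/

set_option autoImplicit false

namespace Pool.Agent.WB

open Finset

theorem ILN_big38 (δ : ℝ) (hδ : 0 < δ) :
    ∃ N₀ : ℕ, ∀ N : ℕ, N₀ ≤ N → 2 ≤ N ∧ (300 : ℝ) ≤ (N : ℝ) ^ δ := by
  refine ⟨max 2 ⌈(300 : ℝ) ^ (1 / δ)⌉₊, fun N hN => ⟨le_trans (le_max_left _ _) hN, ?_⟩⟩
  have h1 : (300 : ℝ) ^ (1 / δ) ≤ (N : ℝ) := by
    refine (Nat.le_ceil _).trans ?_
    exact_mod_cast le_trans (le_max_right _ _) hN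
  calc (300 : ℝ) = ((300 : ℝ) ^ (1 / δ)) ^ δ := by
        rw [← Real.rpow_mul (by norm_num), one_div, inv_mul_cancel₀ hδ.ne', Real.rpow_one]
    _ ≤ (N : ℝ) ^ δ := Real.rpow_le_rpow (by positivity) h1 hδ.le

/-- the flags with given `n` -/
theorem ILN_flags38 (X0 Y : ℝ) (E : Finset ℕ) (P : ℕ → Finset ℕ) (c : ℤ × ℤ) (r : ℕ)
    (hE : ∀ n ∈ E, (P n).card < 2 * r) (n : ℕ) :
    ((TG X0 Y E P c).filter (fun g => g.1 = n)).card ≤ 4 * r ^ 2 := by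
  classical
  by_cases hn : n ∈ E
  · have h1 : ((TG X0 Y E P c).filter (fun g => g.1 = n)).card ≤ ((P n) ×ˢ (P n)).card := by
      apply Finset.card_le_card_of_injOn (fun g => g.2)
      · intro g hg
        rw [Finset.mem_coe, Finset.mem_filter, mem_TG] at hg
        rw [Finset.mem_coe, Finset.mem_product, ← hg.2]
        exact ⟨hg.1.2.1, hg.1.2.2.1⟩
      · intro g hg g' hg' h
        rw [Finset.mem_coe, Finset.mem_filter] at hg hg'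
        exact Prod.ext (by rw [hg.2, hg'.2]) h
    have h2 := hE n hn
    rw [Finset.card_product] at h1
    nlinarith
  · have : ((TG X0 Y E P c).filter (fun g => g.1 = n)) = ∅ := by
      rw [Finset.filter_eq_empty_iff]
      intro g hg hgn
      rw [mem_TG] at hg
      exact hn (hgn ▸ hg.1)
    rw [this]
    simp

/-- the size conditions for the vectors of a family of lifts -/
theorem ILN_box38 (N : ℕ) (n M X0 P Qr ξ α lam δ δ₀ : ℝ) (V : Finset ℕ) (x y w : ℕ → ℤ) (τ τ' : ℕ)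
    (hn : n = (N : ℝ)) (hn1 : 1 < n) (hbig : 300 ≤ n ^ δ) (hM : M = n ^ α)
    (hX0 : X0 = n ^ (ξ + 2 * δ)) (hP : P = n ^ (2 * lam + 4 * δ))
    (hQ : Qr ≤ n ^ (α - ξ + 3 * δ)) (hQ0 : 0 < Qr) (hQ1 : M ≤ 2 * X0 * Qr)
    (hPM : n * X0 ^ 2 = P * M ^ 2) (hτ : (τ : ℝ) ≤ 7 * P) (hτ' : τ' ≤ 2 * τ) (hδ : 0 < δ)
    (hlam : 0 < lam) (hδ₀ : 20 * δ ≤ δ₀) (hα : α + 2 * lam + 6 * δ ≤ 1)
    (hcop : ∀ p ∈ V, IsCoprime (x p) (y p))
    (hV : ∀ p ∈ V, p ∈ prs M ∧ |(x p : ℝ)| ≤ X0 ∧ |(y p : ℝ)| ≤ X0 ∧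
        |(w p : ℝ)| ≤ X0 * (2 * Qr + N / Qr) ∧
        M ≤ 2 * Qr * max |(x p : ℝ)| |(y p : ℝ)|) :
    ∀ ζ ∈ FA V x y w τ', Box N ξ δ₀ ζ ∧
      (N : ℝ) ^ (ξ - δ₀) ≤ max |((ζ 0 : ℤ) : ℝ)| |((ζ 1 : ℤ) : ℝ)| := by
  intro ζ hζ
  unfold FA at hζ
  rw [Finset.mem_image] at hζ
  obtain ⟨b, hb, rfl⟩ := hζ
  rw [Finset.mem_product, Finset.mem_Icc] at hb
  obtain ⟨hp, hs1, hs2⟩ := hb
  obtain ⟨h1, h2, h3, h4, h5⟩ := hV b.1 hp
  have hn0 : 0 < n := by linarith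
  have hM0 : 0 < M := by rw [hM]; positivity
  have hX00 : 0 < X0 := by rw [hX0]; positivity
  have hP0 : 0 < P := by rw [hP]; positivity
  have e0 : (zt x y w b.1 b.2) 0 = x b.1 := rfl
  have e1 : (zt x y w b.1 b.2) 1 = y b.1 := rfl
  have e2 : (zt x y w b.1 b.2) 2 = w b.1 + b.2 * b.1 := rfl
  have hXδ : X0 ≤ n ^ (ξ + δ₀) := by
    rw [hX0]
    exact Real.rpow_le_rpow_of_exponent_le hn1.le (by linarith)
  refine ⟨⟨?_, ?_, ?_, ?_⟩, ?_⟩
  · rw [e0, ← hn]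
    exact h2.trans hXδ
  · rw [e1, ← hn]
    exact h3.trans hXδ
  · rw [e2, ← hn]
    push_cast
    have hp2 : ((b.1 : ℕ) : ℝ) ≤ 2 * M := (mem_prs.1 h1).2.2.le
    have hp0 : (0 : ℝ) ≤ ((b.1 : ℕ) : ℝ) := Nat.cast_nonneg _
    have hsabs : |(b.2 : ℝ)| ≤ 14 * P := by
      have h6 : |b.2| ≤ (τ' : ℤ) := abs_le.2 ⟨hs1, hs2⟩
      have h7 : |(b.2 : ℝ)| ≤ (τ' : ℝ) := by exact_mod_cast h6
      have h8 : (τ' : ℝ) ≤ 2 * τ := by exact_mod_cast hτ'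
      linarith
    have hsp : |(b.2 : ℝ) * ((b.1 : ℕ) : ℝ)| ≤ 28 * (P * M) := by
      rw [abs_mul, abs_of_nonneg hp0]
      calc |(b.2 : ℝ)| * ((b.1 : ℕ) : ℝ) ≤ (14 * P) * (2 * M) :=
            mul_le_mul hsabs hp2 hp0 (by positivity)
        _ = 28 * (P * M) := by ring
    have hw1 : X0 * (N / Qr) ≤ 2 * (P * M) := by
      rw [← hn, mul_div_assoc', div_le_iff₀ hQ0]
      have h9 : X0 * n * M ≤ X0 * n * (2 * X0 * Qr) :=
        mul_le_mul_of_nonneg_left hQ1 (by positivity)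
      have h10 : X0 * n * (2 * X0 * Qr) = 2 * (P * M) * Qr * M := by
        calc X0 * n * (2 * X0 * Qr) = 2 * Qr * (n * X0 ^ 2) := by ring
          _ = 2 * (P * M) * Qr * M := by rw [hPM]; ring
      rw [h10] at h9
      exact le_of_mul_le_mul_right h9 hM0
    have hw2 : X0 * (2 * Qr) ≤ 2 * n ^ (α + 5 * δ) := by
      have h9 : X0 * Qr ≤ X0 * n ^ (α - ξ + 3 * δ) := mul_le_mul_of_nonneg_left hQ hX00.le
      have h10 : X0 * n ^ (α - ξ + 3 * δ) = n ^ (α + 5 * δ) := by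
        rw [hX0, ← Real.rpow_add hn0]
        congr 1
        ring
      rw [h10] at h9
      linarith
    have hPMe : P * M = n ^ (α + 2 * lam + 4 * δ) := by
      rw [hP, hM, ← Real.rpow_add hn0]
      congr 1
      ring
    have h11 : n ^ (α + 5 * δ) ≤ n ^ (α + 2 * lam + 5 * δ) :=
      Real.rpow_le_rpow_of_exponent_le hn1.le (by linarith)
    have h12 : n ^ (α + 2 * lam + 4 * δ) ≤ n ^ (α + 2 * lam + 5 * δ) :=
      Real.rpow_le_rpow_of_exponent_le hn1.le (by linarith)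
    have h13 : 32 * n ^ (α + 2 * lam + 5 * δ) ≤ n := by
      calc 32 * n ^ (α + 2 * lam + 5 * δ) ≤ n ^ δ * n ^ (α + 2 * lam + 5 * δ) := by
            apply mul_le_mul_of_nonneg_right _ (by positivity)
            linarith
        _ = n ^ (α + 2 * lam + 6 * δ) := by
            rw [← Real.rpow_add hn0]
            congr 1
            ring
        _ ≤ n ^ (1 : ℝ) := Real.rpow_le_rpow_of_exponent_le hn1.le hα
        _ = n := Real.rpow_one n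
    calc |(w b.1 : ℝ) + (b.2 : ℝ) * ((b.1 : ℕ) : ℝ)| ≤ |(w b.1 : ℝ)| + |(b.2 : ℝ) * ((b.1 : ℕ) : ℝ)| :=
          abs_add_le _ _
      _ ≤ X0 * (2 * Qr + N / Qr) + 28 * (P * M) := add_le_add h4 hsp
      _ = X0 * (2 * Qr) + X0 * (N / Qr) + 28 * (P * M) := by ring
      _ ≤ 2 * n ^ (α + 5 * δ) + 2 * (P * M) + 28 * (P * M) := by linarith
      _ = 2 * n ^ (α + 5 * δ) + 30 * n ^ (α + 2 * lam + 4 * δ) := by rw [hPMe]; ring
      _ ≤ 32 * n ^ (α + 2 * lam + 5 * δ) := by linarith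
      _ ≤ n := h13
  · rw [e0, e1]
    exact hcop _ hp
  · rw [e0, e1, ← hn]
    have h6 : n ^ (ξ - δ₀) ≤ n ^ (ξ - 4 * δ) :=
      Real.rpow_le_rpow_of_exponent_le hn1.le (by linarith)
    refine h6.trans ?_
    have hmax : 0 ≤ max |(x b.1 : ℝ)| |(y b.1 : ℝ)| := le_trans (abs_nonneg _) (le_max_left _ _)
    have h7 : M ≤ 2 * n ^ (α - ξ + 3 * δ) * max |(x b.1 : ℝ)| |(y b.1 : ℝ)| := by
      refine h5.trans ?_
      apply mul_le_mul_of_nonneg_right _ hmax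
      linarith
    have h8 : n ^ (ξ - 4 * δ) * (2 * n ^ (α - ξ + 3 * δ)) ≤ M := by
      have h9 : n ^ (ξ - 4 * δ) * n ^ (α - ξ + 3 * δ) * n ^ δ = M := by
        rw [hM, ← Real.rpow_add hn0, ← Real.rpow_add hn0]
        congr 1
        ring
      have h10 : 0 ≤ n ^ (ξ - 4 * δ) * n ^ (α - ξ + 3 * δ) := by positivity
      nlinarith
    have h9 : n ^ (ξ - 4 * δ) * (2 * n ^ (α - ξ + 3 * δ)) ≤
        max |(x b.1 : ℝ)| |(y b.1 : ℝ)| * (2 * n ^ (α - ξ + 3 * δ)) := by linarith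
    exact le_of_mul_le_mul_right h9 (by positivity)

theorem ILN (hCL2 : CL2_stmt) (hILC : ILC_stmt) (hINP : INP_stmt) (hIF1 : IF1_stmt)
    (hIF2 : IF2_stmt) (hIF3 : IF3_stmt) : ILN_stmt := by
  intro α lam ε hα1 hα2 hlam h8 hε
  obtain ⟨δ₀, hδ₀, N₁, hN₁⟩ := hCL2 (α - 1 / 2 + lam) lam ε hlam (by linarith) (by linarith) hε
  refine ⟨min (δ₀ / 20) (min ((1 - α) / 80) lam), ?_, ?_⟩
  · exact lt_min (by linarith) (lt_min (by linarith) hlam)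
  intro δ hδ hδ1
  have hd1 : 20 * δ ≤ δ₀ := by
    have := le_trans hδ1 (min_le_left _ _)
    linarith
  have hd2 : 80 * δ ≤ 1 - α := by
    have := le_trans hδ1 (le_trans (min_le_right _ _) (min_le_left _ _))
    linarith
  obtain ⟨N₂, hN₂⟩ := ILN_big38 δ hδ
  refine ⟨max N₁ N₂, ?_⟩
  intro N hN r hr1 hr a E q q' hE hcop hqq hq'
  obtain ⟨hN2, hbig⟩ := hN₂ N (le_trans (le_max_right _ _) hN)
  have hN1 := hN₁ N (le_trans (le_max_left _ _) hN) r hr1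
  obtain ⟨ξ, hξ⟩ : ∃ ξ, ξ = α - 1 / 2 + lam := ⟨_, rfl⟩
  rw [← hξ] at hN1 hq' ⊢
  have hξ0 : 0 < ξ := by rw [hξ]; linarith
  obtain ⟨n, hn⟩ : ∃ n : ℝ, n = (N : ℝ) := ⟨_, rfl⟩
  have hn1 : 1 < n := by
    rw [hn]
    have : (2 : ℝ) ≤ (N : ℝ) := by exact_mod_cast hN2
    linarith
  have hn0 : 0 < n := by linarith
  rw [← hn] at hbig hq' hr ⊢
  have hr0 : (1 : ℝ) ≤ r := by exact_mod_cast hr1
  by_cases hemp : TG (n ^ (ξ + 2 * δ)) (n ^ (2 * ξ)) E (thr (n ^ α) a) (q, q') = ∅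
  · rw [hemp, Finset.card_empty, Nat.cast_zero]
    positivity
  obtain ⟨M, hM⟩ : ∃ M, M = n ^ α := ⟨_, rfl⟩
  obtain ⟨X0, hX0⟩ : ∃ X0, X0 = n ^ (ξ + 2 * δ) := ⟨_, rfl⟩
  obtain ⟨Y, hY⟩ : ∃ Y, Y = n ^ (2 * ξ) := ⟨_, rfl⟩
  obtain ⟨P, hP⟩ : ∃ P, P = n ^ (2 * lam + 4 * δ) := ⟨_, rfl⟩
  rw [← hn, ← hM] at hE
  rw [← hM, ← hX0, ← hY] at hemp ⊢
  have hM0 : 0 < M := by rw [hM]; positivity
  have hX00 : 0 < X0 := by rw [hX0]; positivity
  have hX01 : 1 ≤ X0 := by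
    rw [hX0]
    exact Real.one_le_rpow hn1.le (by linarith)
  have hP1 : 1 ≤ P := by
    rw [hP]
    exact Real.one_le_rpow hn1.le (by linarith)
  have hX0sq : X0 ^ 2 = n ^ (2 * ξ + 4 * δ) := by
    rw [hX0, ← Real.rpow_natCast, ← Real.rpow_mul hn0.le]
    congr 1
    push_cast
    ring
  have hMsq : M ^ 2 = n ^ (2 * α) := by
    rw [hM, ← Real.rpow_natCast, ← Real.rpow_mul hn0.le]
    congr 1
    push_cast
    ring
  have hPM : n * X0 ^ 2 = P * M ^ 2 := by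
    rw [hX0sq, hMsq, hP, ← Real.rpow_add hn0]
    nth_rewrite 1 [← Real.rpow_one n]
    rw [← Real.rpow_add hn0]
    congr 1
    rw [hξ]
    ring
  have h4X : 4 * X0 ^ 2 < M := by
    rw [hX0sq]
    have h1 : 0 < n ^ (2 * ξ + 4 * δ) := by positivity
    calc 4 * n ^ (2 * ξ + 4 * δ) < n ^ δ * n ^ (2 * ξ + 4 * δ) := by
          apply mul_lt_mul_of_pos_right _ h1
          linarith
      _ = n ^ (2 * ξ + 5 * δ) := by
          rw [← Real.rpow_add hn0]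
          congr 1
          ring
      _ ≤ M := by
          rw [hM]
          apply Real.rpow_le_rpow_of_exponent_le hn1.le
          rw [hξ]
          linarith
  have hNM : (N : ℝ) < M ^ 2 := by
    rw [← hn, hMsq]
    calc n = n ^ (1 : ℝ) := (Real.rpow_one n).symm
      _ < n ^ (2 * α) := Real.rpow_lt_rpow_of_exponent_lt hn1 (by linarith)
  have hQ1 : M ≤ 2 * X0 * |(q' : ℝ)| := by
    obtain ⟨g, hg⟩ := Finset.nonempty_iff_ne_empty.2 hemp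
    rw [mem_TG] at hg
    obtain ⟨_, hg2, _, _, Δ, _, x, y, x', y', h1, _, h3, h4, _⟩ := hg
    have h5 := (mem_prs.1 (mem_thr.1 hg2).1).2.1
    have h6 : ((g.2.1 : ℕ) : ℝ) = (x : ℝ) * q + (y : ℝ) * q' := by
      have : ((x * q + y * q' : ℤ) : ℝ) = ((g.2.1 : ℤ) : ℝ) := by
        rw [← h1]
      push_cast at this
      exact this.symm
    have h7 : |(q : ℝ)| ≤ |(q' : ℝ)| := by exact_mod_cast hqq
    calc M ≤ (x : ℝ) * q + (y : ℝ) * q' := by rw [← h6]; exact h5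
      _ ≤ |(x : ℝ)| * |(q : ℝ)| + |(y : ℝ)| * |(q' : ℝ)| := by
          rw [← abs_mul, ← abs_mul]
          exact add_le_add (le_abs_self _) (le_abs_self _)
      _ ≤ X0 * |(q' : ℝ)| + X0 * |(q' : ℝ)| := by
          apply add_le_add
          · exact mul_le_mul h3 h7 (abs_nonneg _) hX00.le
          · exact mul_le_mul_of_nonneg_right h4 (abs_nonneg _)
      _ = 2 * X0 * |(q' : ℝ)| := by ring
  have hQ0 : 0 < |(q' : ℝ)| := by
    by_contra hcon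
    have : |(q' : ℝ)| = 0 := le_antisymm (not_lt.1 hcon) (abs_nonneg _)
    rw [this, mul_zero] at hQ1
    linarith
  obtain ⟨τ, hτdef⟩ : ∃ τ : ℕ, τ = ⌈6 * P⌉₊ := ⟨_, rfl⟩
  have hτ1 : 6 * P ≤ (τ : ℝ) := by
    rw [hτdef]
    exact Nat.le_ceil _
  have hτ2 : (τ : ℝ) ≤ 7 * P := by
    rw [hτdef]
    have := Nat.ceil_lt_add_one (show 0 ≤ 6 * P by linarith)
    linarith
  have hτ3 : 2 + 2 * (N / M * X0) / |(q' : ℝ)| ≤ τ := by
    have h1 : (n / M * X0) ≤ 2 * P * |(q' : ℝ)| := by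
      rw [div_mul_eq_mul_div, div_le_iff₀ hM0]
      have h2 : P * M * M ≤ P * M * (2 * X0 * |(q' : ℝ)|) :=
        mul_le_mul_of_nonneg_left hQ1 (by positivity)
      have h3 : n * X0 * X0 ≤ 2 * P * |(q' : ℝ)| * M * X0 := by
        calc n * X0 * X0 = P * M * M := by rw [mul_assoc, ← pow_two, hPM]; ring
          _ ≤ P * M * (2 * X0 * |(q' : ℝ)|) := h2
          _ = 2 * P * |(q' : ℝ)| * M * X0 := by ring
      exact le_of_mul_le_mul_right h3 hX00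
    have h2 : 2 * (n / M * X0) / |(q' : ℝ)| ≤ 4 * P := by
      rw [div_le_iff₀ hQ0]
      linarith
    rw [← hn]
    linarith
  obtain ⟨V, x, y, w, t, hFr, ht, hV, hVc⟩ := hILC N M X0 Y a q q' E τ hX01 h4X hNM hcop hqq
    (fun m hm => ⟨(hE m hm).1, (hE m hm).2.1⟩) hτ3
  have hcopV : ∀ p ∈ V, IsCoprime (x p) (y p) := fun p hp => (hFr.1 p hp).2.2
  have hαb : α + 2 * lam + 6 * δ ≤ 1 := by linarith
  have hboxA := ILN_box38 N n M X0 P |(q' : ℝ)| ξ α lam δ δ₀ V x y w τ τ hn hn1 hbig hM hX0 hP hq' hQ0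
    hQ1 hPM hτ2 (by omega) hδ hlam hd1 hαb hcopV hV
  have hboxB := ILN_box38 N n M X0 P |(q' : ℝ)| ξ α lam δ δ₀ V x y w τ (2 * τ) hn hn1 hbig hM hX0 hP hq'
    hQ0 hQ1 hPM hτ2 le_rfl hδ hlam hd1 hαb hcopV hV
  obtain ⟨hNPA, hcA⟩ := hINP q q' V x y w _ t τ hFr
  obtain ⟨hNPB, hcB⟩ := hINP q q' V x y w _ t (2 * τ) hFr
  have hcard : ∀ τ' : ℕ, τ' ≤ 2 * τ → (V.card : ℝ) * (2 * τ' + 1) ≤ n ^ (2 * ξ + 2 * lam + δ₀) := by
    intro τ' hτ'
    have h1 : (τ' : ℝ) ≤ 2 * τ := by exact_mod_cast hτ'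
    have h2 : (2 * (τ' : ℝ) + 1) ≤ 29 * P := by linarith
    have h3 : (V.card : ℝ) ≤ 9 * X0 ^ 2 := by
      refine hVc.trans ?_
      nlinarith
    calc (V.card : ℝ) * (2 * τ' + 1) ≤ (9 * X0 ^ 2) * (29 * P) :=
          mul_le_mul h3 h2 (by positivity) (by positivity)
      _ = 261 * (X0 ^ 2 * P) := by ring
      _ ≤ n ^ δ * (X0 ^ 2 * P) := by
          apply mul_le_mul_of_nonneg_right _ (by positivity)
          linarith
      _ = n ^ (2 * ξ + 2 * lam + 9 * δ) := by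
          rw [hX0sq, hP, ← Real.rpow_add hn0, ← Real.rpow_add hn0]
          congr 1
          ring
      _ ≤ n ^ (2 * ξ + 2 * lam + δ₀) := Real.rpow_le_rpow_of_exponent_le hn1.le (by linarith)
  have htabs : ∀ g ∈ TG X0 Y E (thr M a) (q, q'), |t g| ≤ τ := fun g hg => (ht g hg).1
  have hF1 := hIF1 q q' V x y w _ t τ hFr htabs
  obtain ⟨hF2a, hF2b, hF2c⟩ := hIF2 q q' V x y w _ t τ hFr
  have hF3 := hIF3 q q' V x y w _ t τ (4 * r ^ 2) hFr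
    (ILN_flags38 X0 Y E (thr M a) (q, q') r (fun m hm => (hE m hm).2.2))
  have hrr : (N : ℝ) ^ (ξ - lam + ε) ≤ (r : ℝ) := by
    rw [← hn]
    have : ξ - lam + ε = α - 1 / 2 + ε := by rw [hξ]; ring
    rw [this]
    exact hr
  have key := hN1 hrr (FA V x y w τ) (FA V x y w (2 * τ))
    (FF x y w (TG X0 Y E (thr M a) (q, q')) t τ)
    (fun e he => ⟨(hF1 e he).1, (hF1 e he).2.1⟩) hboxA hboxB
    (by
      have h1 : ((FA V x y w τ).card : ℝ) ≤ (V.card : ℝ) * (2 * (τ : ℕ) + 1) := by exact_mod_cast hcA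
      rw [← hn]
      exact h1.trans (hcard τ (by omega)))
    (by
      have h1 : ((FA V x y w (2 * τ)).card : ℝ) ≤ (V.card : ℝ) * (2 * ((2 * τ : ℕ) : ℝ) + 1) := by
        exact_mod_cast hcB
      rw [← hn]
      exact h1.trans (hcard (2 * τ) le_rfl))
    hNPA hNPB
    (by
      intro e he
      obtain ⟨_, _, h3, g, hg, h4⟩ := hF1 e he
      refine ⟨?_, ?_, h3⟩
      · rw [h4]
        exact (hFr.2.1 g hg).2.2.1
      · rw [h4, ← hn]
        refine le_trans ?_ (ht g hg).2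
        rw [hY]
        exact Real.rpow_le_rpow_of_exponent_le hn1.le (by linarith))
    hF2a hF2b hF3
  rw [hF2c, ← hn] at key
  push_cast at key
  have h2τ : n ^ (2 * lam) ≤ 2 * (τ : ℝ) + 1 := by
    have h1 : n ^ (2 * lam) ≤ P := by
      rw [hP]
      exact Real.rpow_le_rpow_of_exponent_le hn1.le (by linarith)
    linarith
  have h1 : ((TG X0 Y E (thr M a) (q, q')).card : ℝ) * n ^ (2 * lam) <
      (r : ℝ) * n ^ (2 * ξ + 2 * lam - 20 * δ) * n ^ (2 * lam) := by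
    calc ((TG X0 Y E (thr M a) (q, q')).card : ℝ) * n ^ (2 * lam)
        ≤ ((TG X0 Y E (thr M a) (q, q')).card : ℝ) * (2 * (τ : ℝ) + 1) :=
          mul_le_mul_of_nonneg_left h2τ (Nat.cast_nonneg _)
      _ < (r : ℝ) * n ^ (2 * ξ + 4 * lam - δ₀) := key
      _ ≤ (r : ℝ) * n ^ (2 * ξ + 4 * lam - 20 * δ) := by
          apply mul_le_mul_of_nonneg_left _ (by linarith)
          exact Real.rpow_le_rpow_of_exponent_le hn1.le (by linarith)
      _ = (r : ℝ) * n ^ (2 * ξ + 2 * lam - 20 * δ) * n ^ (2 * lam) := by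
          rw [mul_assoc, ← Real.rpow_add hn0]
          congr 2
          ring
  exact lt_of_mul_lt_mul_right h1 (by positivity)

end Pool.Agent.WB
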