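import Pool.Agent.helper61.WB.RED

set_option autoImplicit false

/-!
# WB project: limits of reduced density matrices
-/

namespace Pool.Agent.helper65.WB

open Finset Matrix Filter
open scoped ComplexOrder

theorem limit_state {D : ℕ} (U : Matrix (Fin D) (Fin D) ℂ)
    (hU : U ∈ Matrix.unitaryGroup (Fin D) ℂ) (k : ℕ → ℕ)
    (ψ : ∀ j, (Fin (k j + 1) → Fin D) → ℂ) (hk : Tendsto k atTop atTop)
    (hψ : ∀ j, IsEigen U (ψ j)) (c : ∀ n : ℕ, (Fin n → Fin D) → ℝ)
    (hc : ∀ (n : ℕ) (w : Fin n → Fin D), Tendsto (fun j => prob (ψ j) w) atTop (nhds (c n w))) :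
    ∃ ρ : ∀ n : ℕ, Matrix (Fin n → Fin D) (Fin n → Fin D) ℂ, IsInvState U ρ ∧
      ∀ (n : ℕ) (w : Fin n → Fin D), ρ n w w = c n w := by
  classical
  choose R hpos htr hright hleft hinv hdiag hbd using fun j => reduced U hU (ψ j) (hψ j)
  let F : Ultrafilter ℕ := Filter.hyperfilter ℕ
  have hF : (F : Filter ℕ) ≤ atTop := Nat.hyperfilter_le_atTop
  have hlim : ∀ (n : ℕ) (u v : Fin n → Fin D), ∃ z : ℂ,
      Tendsto (fun j => R j n u v) (F : Filter ℕ) (nhds z) := by
    intro n u v
    have hcpt := isCompact_closedBall (0 : ℂ) 1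
    have hmem : ((F.map (fun j => R j n u v) : Ultrafilter ℂ) : Filter ℂ) ≤
        Filter.principal (Metric.closedBall (0 : ℂ) 1) := by
      rw [Filter.le_principal_iff]
      apply Filter.mem_map.2
      apply Filter.univ_mem'
      intro j
      simpa using hbd j n u v
    obtain ⟨z, _, hz⟩ := isCompact_iff_ultrafilter_le_nhds.1 hcpt _ hmem
    exact ⟨z, hz⟩
  choose ρ₀ hρ₀ using hlim
  obtain ⟨ρ, hρ⟩ : ∃ ρ : ∀ n : ℕ, Matrix (Fin n → Fin D) (Fin n → Fin D) ℂ,
      ∀ (n : ℕ) (u v : Fin n → Fin D),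
        Tendsto (fun j => R j n u v) (F : Filter ℕ) (nhds (ρ n u v)) :=
    ⟨fun n => Matrix.of (ρ₀ n), hρ₀⟩
  have hev : ∀ n : ℕ, ∀ᶠ j in (F : Filter ℕ), n ≤ k j := fun n =>
    hF (hk.eventually_ge_atTop n)
  have hmat : ∀ n, Tendsto (fun j => R j n) (F : Filter ℕ) (nhds (ρ n)) := by
    intro n
    exact tendsto_pi_nhds.2 fun u => tendsto_pi_nhds.2 fun v => hρ n u v
  refine ⟨ρ, ⟨?_, ?_, ?_, ?_, ?_⟩, ?_⟩
  · intro n
    have hH : ∀ j, (R j n).IsHermitian := fun j => (hpos j n).isHermitian
    refine Matrix.PosSemidef.of_dotProduct_mulVec_nonneg ?_ ?_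
    · ext u v
      have h1 : Tendsto (fun j => (starRingEnd ℂ) (R j n v u)) (F : Filter ℕ)
          (nhds ((starRingEnd ℂ) (ρ n v u))) :=
        (Complex.continuous_conj.tendsto _).comp (hρ n v u)
      have h2 : Tendsto (fun j => (starRingEnd ℂ) (R j n v u)) (F : Filter ℕ)
          (nhds (ρ n u v)) := by
        refine (hρ n u v).congr fun j => ?_
        have := congrFun (congrFun (hH j) u) v
        rw [← this]; rfl
      exact tendsto_nhds_unique h1 h2
    · intro x
      have h1 : Tendsto (fun j => star x ⬝ᵥ ((R j n).mulVec x)) (F : Filter ℕ)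
          (nhds (star x ⬝ᵥ ((ρ n).mulVec x))) := by
        have hcont : Continuous (fun A : Matrix (Fin n → Fin D) (Fin n → Fin D) ℂ =>
            star x ⬝ᵥ (A.mulVec x)) := by fun_prop
        exact (hcont.tendsto _).comp (hmat n)
      exact ge_of_tendsto h1 (Filter.Eventually.of_forall fun j =>
        (hpos j n).dotProduct_mulVec_nonneg x)
  · intro n
    have hcont : Continuous (fun A : Matrix (Fin n → Fin D) (Fin n → Fin D) ℂ => A.trace) := by
      fun_prop
    refine tendsto_nhds_unique ((hcont.tendsto _).comp (hmat n)) ?_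
    apply tendsto_const_nhds.congr'
    filter_upwards [hev n] with j hj
    exact (htr j n hj).symm
  · intro n u v
    refine tendsto_nhds_unique (tendsto_finsetSum _ fun c _ => hρ (n + 1) _ _) ?_
    apply (hρ n u v).congr'
    filter_upwards [hev (n + 1)] with j hj
    exact (hright j n hj u v).symm
  · intro n u v
    refine tendsto_nhds_unique (tendsto_finsetSum _ fun c _ => hρ (n + 1) _ _) ?_
    apply (hρ n u v).congr'
    filter_upwards [hev (n + 1)] with j hj
    exact (hleft j n hj u v).symm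
  · intro n
    have hcont : Continuous (fun A : Matrix (Fin n → Fin D) (Fin n → Fin D) ℂ =>
        tpow U n * A * (tpow U n)ᴴ) := by fun_prop
    refine tendsto_nhds_unique ((hcont.tendsto _).comp (hmat n)) ?_
    apply (hmat n).congr'
    filter_upwards [hev n] with j hj
    exact (hinv j n hj).symm
  · intro n w
    refine tendsto_nhds_unique (hρ n w w) ?_
    have h1 : Tendsto (fun j => ((prob (ψ j) w : ℝ) : ℂ)) (F : Filter ℕ)
        (nhds ((c n w : ℝ) : ℂ)) :=
      (Complex.continuous_ofReal.tendsto _).comp ((hc n w).mono_left hF)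
    apply h1.congr'
    filter_upwards [hev n] with j hj
    exact (hdiag j n hj w).symm

end Pool.Agent.helper65.WB
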