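import Pool.Agent.helper65.WB.Defs

set_option autoImplicit false

/-!
# WB project: from an ensemble to one eigenvector
-/

namespace Pool.Agent.helper65.WB

open Finset Matrix Filter
open scoped ComplexOrder

theorem SEL_nil {W : Type} [Fintype W] (N : Matrix W W ℂ) (hN : Nᴴ * N = N * Nᴴ)
    (v : W → ℂ) (h : N.mulVec (N.mulVec v) = 0) : N.mulVec v = 0 := by
  have h1 : (Nᴴ * N).mulVec ((Nᴴ * N).mulVec v) = 0 := by
    rw [Matrix.mulVec_mulVec]
    have : (Nᴴ * N) * (Nᴴ * N) = Nᴴ * (Nᴴ * (N * N)) := by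
      calc (Nᴴ * N) * (Nᴴ * N) = Nᴴ * (N * Nᴴ) * N := by simp only [Matrix.mul_assoc]
        _ = Nᴴ * (Nᴴ * N) * N := by rw [hN]
        _ = _ := by simp only [Matrix.mul_assoc]
    rw [this, ← Matrix.mulVec_mulVec, ← Matrix.mulVec_mulVec, ← Matrix.mulVec_mulVec, h]
    simp
  have h2 : ((Nᴴ * N)ᴴ * (Nᴴ * N)).mulVec v = 0 := by
    rw [conjTranspose_mul, conjTranspose_conjTranspose, ← mulVec_mulVec]; exact h1
  rw [Matrix.conjTranspose_mul_self_mulVec_eq_zero] at h2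
  rwa [Matrix.conjTranspose_mul_self_mulVec_eq_zero] at h2

theorem SEL_nil_pow {W : Type} [Fintype W] [DecidableEq W] (N : Matrix W W ℂ)
    (hN : Nᴴ * N = N * Nᴴ) (v : W → ℂ) (k : ℕ) (h : (N ^ k).mulVec v = 0) :
    N.mulVec v = 0 := by
  induction k with
  | zero => simp at h; simp [h]
  | succ k ih =>
    rcases Nat.eq_zero_or_pos k with hk | hk
    · subst hk; simpa using h
    · obtain ⟨m, rfl⟩ : ∃ m, k = m + 1 := ⟨k - 1, by omega⟩
      apply ih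
      rw [pow_succ', ← mulVec_mulVec]
      apply SEL_nil N hN
      rw [mulVec_mulVec, mulVec_mulVec]
      rw [pow_succ', pow_succ', ← Matrix.mul_assoc] at h
      exact h

theorem SEL_decomp {W : Type} [Fintype W] [DecidableEq W] (B : Matrix W W ℂ)
    (hB : B ∈ Matrix.unitaryGroup W ℂ) (v : W → ℂ) :
    ∃ (Z : Finset ℂ) (f : ℂ → W → ℂ), (∀ z, B.mulVec (f z) = z • f z) ∧
      (∀ z ∉ Z, f z = 0) ∧ v = ∑ z ∈ Z, f z := by
  have hB1 : Bᴴ * B = 1 := Matrix.mem_unitaryGroup_iff'.1 hB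
  have hB2 : B * Bᴴ = 1 := Matrix.mem_unitaryGroup_iff.1 hB
  have hN : ∀ z : ℂ, (B - z • (1 : Matrix W W ℂ))ᴴ * (B - z • (1 : Matrix W W ℂ)) =
      (B - z • (1 : Matrix W W ℂ)) * (B - z • (1 : Matrix W W ℂ))ᴴ := by
    intro z
    rw [conjTranspose_sub, conjTranspose_smul, conjTranspose_one]
    simp only [Matrix.sub_mul, Matrix.mul_sub, hB1, hB2, Matrix.smul_mul, Matrix.mul_smul,
      Matrix.one_mul, Matrix.mul_one, smul_sub, smul_smul]
    rw [mul_comm z (star z)]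
    abel
  have htop := Module.End.iSup_maxGenEigenspace_eq_top (Matrix.toLin' B)
  have hE : ∀ z : ℂ, ∀ w ∈ Module.End.maxGenEigenspace (Matrix.toLin' B) z,
      B.mulVec w = z • w := by
    intro z w hw
    rw [Module.End.mem_maxGenEigenspace] at hw
    obtain ⟨k, hk⟩ := hw
    have e1 : (Matrix.toLin' B - z • (1 : Module.End ℂ (W → ℂ))) =
        Matrix.toLin' (B - z • (1 : Matrix W W ℂ)) := by
      rw [map_sub, map_smul, Matrix.toLin'_one]; rfl
    rw [e1, ← Matrix.toLin'_pow, Matrix.toLin'_apply] at hk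
    have := SEL_nil_pow _ (hN z) w k hk
    rw [sub_mulVec, smul_mulVec, one_mulVec, sub_eq_zero] at this
    exact this
  have hv : v ∈ ⨆ z, Module.End.maxGenEigenspace (Matrix.toLin' B) z := by rw [htop]; trivial
  rw [Submodule.mem_iSup_iff_exists_finsupp] at hv
  obtain ⟨f, hf, hs⟩ := hv
  refine ⟨f.support, f, fun z => hE z _ (hf z), fun z hz => by simpa using hz, ?_⟩
  rw [← hs]; rfl

theorem SEL_geom (w : ℂ) (hw : ‖w‖ = 1) (hw1 : w ≠ 1) :
    Tendsto (fun T : ℕ => (∑ t ∈ range T, w ^ t) / (T : ℂ)) atTop (nhds 0) := by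
  rw [tendsto_zero_iff_norm_tendsto_zero]
  have h0 : Tendsto (fun T : ℕ => (2 / ‖w - 1‖) / (T : ℝ)) atTop (nhds 0) :=
    tendsto_const_div_atTop_nhds_zero_nat _
  refine squeeze_zero (fun T => norm_nonneg _) (fun T => ?_) h0
  rw [norm_div, Complex.norm_natCast]
  apply div_le_div_of_nonneg_right _ (Nat.cast_nonneg T)
  rw [geom_sum_eq hw1, norm_div]
  apply div_le_div_of_nonneg_right _ (norm_nonneg _)
  calc ‖w ^ T - 1‖ ≤ ‖w ^ T‖ + ‖(1 : ℂ)‖ := norm_sub_le _ _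
    _ = 2 := by rw [norm_pow, hw]; norm_num

theorem SEL_wiener (Z : Finset ℂ) (hZ : ∀ z ∈ Z, ‖z‖ = 1) (a : ℂ → ℂ) :
    Tendsto (fun T : ℕ => (∑ t ∈ range T, ‖∑ z ∈ Z, z ^ t * a z‖ ^ 2) / (T : ℝ)) atTop
      (nhds (∑ z ∈ Z, ‖a z‖ ^ 2)) := by
  have key : Tendsto (fun T : ℕ => ∑ z ∈ Z, ∑ y ∈ Z, (a z * (starRingEnd ℂ) (a y)) *
      ((∑ t ∈ range T, (z * (starRingEnd ℂ) y) ^ t) / (T : ℂ))) atTop
      (nhds (∑ z ∈ Z, ∑ y ∈ Z, (a z * (starRingEnd ℂ) (a y)) * (if z = y then 1 else 0))) := by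
    refine tendsto_finsetSum _ fun z hz => tendsto_finsetSum _ fun y hy => ?_
    refine Tendsto.const_mul _ ?_
    split_ifs with hzy
    · subst hzy
      have h1 : z * (starRingEnd ℂ) z = 1 := by
        rw [Complex.mul_conj, Complex.normSq_eq_norm_sq, hZ z hz]; norm_num
      rw [h1]
      apply tendsto_const_nhds.congr'
      filter_upwards [eventually_ge_atTop 1] with T hT
      have : (T : ℂ) ≠ 0 := by exact_mod_cast (by omega : T ≠ 0)
      simp [this]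
    · apply SEL_geom
      · rw [norm_mul, RCLike.norm_conj, hZ z hz, hZ y hy]; norm_num
      · intro h
        apply hzy
        have h1 : (starRingEnd ℂ) y * y = 1 := by
          rw [mul_comm, Complex.mul_conj, Complex.normSq_eq_norm_sq, hZ y hy]; norm_num
        calc z = z * ((starRingEnd ℂ) y * y) := by rw [h1, mul_one]
          _ = (z * (starRingEnd ℂ) y) * y := by ring
          _ = y := by rw [h, one_mul]
  have e1 : (∑ z ∈ Z, ∑ y ∈ Z, (a z * (starRingEnd ℂ) (a y)) * (if z = y then 1 else 0)) =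
      ((∑ z ∈ Z, ‖a z‖ ^ 2 : ℝ) : ℂ) := by
    push_cast
    refine Finset.sum_congr rfl fun z hz => ?_
    simp only [mul_ite, mul_one, mul_zero]
    rw [Finset.sum_ite_eq, if_pos hz, Complex.mul_conj, Complex.normSq_eq_norm_sq]
    push_cast; rfl
  rw [e1] at key
  have key2 := (Complex.continuous_re.tendsto _).comp key
  rw [Complex.ofReal_re] at key2
  refine key2.congr fun T => ?_
  simp only [Function.comp]
  have e2 : (∑ z ∈ Z, ∑ y ∈ Z, (a z * (starRingEnd ℂ) (a y)) *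
      ((∑ t ∈ range T, (z * (starRingEnd ℂ) y) ^ t) / (T : ℂ))) =
      (((∑ t ∈ range T, ‖∑ z ∈ Z, z ^ t * a z‖ ^ 2) / (T : ℝ) : ℝ) : ℂ) := by
    push_cast
    have e3 : ∀ t : ℕ, ((‖∑ z ∈ Z, z ^ t * a z‖ : ℂ)) ^ 2 =
        ∑ z ∈ Z, ∑ y ∈ Z, (a z * (starRingEnd ℂ) (a y)) * (z * (starRingEnd ℂ) y) ^ t := by
      intro t
      have : ((‖∑ z ∈ Z, z ^ t * a z‖ : ℂ)) ^ 2 =
          (∑ z ∈ Z, z ^ t * a z) * (starRingEnd ℂ) (∑ z ∈ Z, z ^ t * a z) := by
        rw [Complex.mul_conj, Complex.normSq_eq_norm_sq]; push_cast; rfl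
      rw [this, map_sum, Finset.sum_mul_sum]
      refine Finset.sum_congr rfl fun z _ => Finset.sum_congr rfl fun y _ => ?_
      rw [map_mul, map_pow, mul_pow]; ring
    simp only [e3]
    symm
    rw [Finset.sum_comm, Finset.sum_div]
    refine Finset.sum_congr rfl fun z _ => ?_
    rw [Finset.sum_comm, Finset.sum_div]
    refine Finset.sum_congr rfl fun y _ => ?_
    rw [← Finset.mul_sum, mul_div_assoc]
  rw [e2, Complex.ofReal_re]

theorem SEL_norm {W : Type} [Fintype W] [DecidableEq W] (B : Matrix W W ℂ)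
    (hB : B ∈ Matrix.unitaryGroup W ℂ) (v : W → ℂ) :
    ∑ x, ‖(B.mulVec v) x‖ ^ 2 = ∑ x, ‖v x‖ ^ 2 := by
  have hB1 : Bᴴ * B = 1 := Matrix.mem_unitaryGroup_iff'.1 hB
  have e : ∀ u : W → ℂ, ((∑ x, ‖u x‖ ^ 2 : ℝ) : ℂ) = star u ⬝ᵥ u := by
    intro u
    rw [dotProduct]
    push_cast
    refine Finset.sum_congr rfl fun x _ => ?_
    rw [Pi.star_apply, mul_comm, Complex.star_def, Complex.mul_conj, Complex.normSq_eq_norm_sq]
    push_cast; rfl
  have : ((∑ x, ‖(B.mulVec v) x‖ ^ 2 : ℝ) : ℂ) = ((∑ x, ‖v x‖ ^ 2 : ℝ) : ℂ) := by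
    rw [e, e, star_mulVec, dotProduct_mulVec, vecMul_vecMul, hB1, vecMul_one]
  exact_mod_cast this

theorem SEL_eig_norm {W : Type} [Fintype W] [DecidableEq W] (B : Matrix W W ℂ)
    (hB : B ∈ Matrix.unitaryGroup W ℂ) (v : W → ℂ) (z : ℂ) (hz : B.mulVec v = z • v)
    (hv : v ≠ 0) : ‖z‖ = 1 := by
  have h1 := SEL_norm B hB v
  rw [hz] at h1
  simp only [Pi.smul_apply, smul_eq_mul, norm_mul, mul_pow, ← Finset.mul_sum] at h1
  have h2 : 0 < ∑ x, ‖v x‖ ^ 2 := by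
    obtain ⟨x, hx⟩ := Function.ne_iff.1 hv
    have hx' : 0 < ‖v x‖ := norm_pos_iff.2 hx
    have := Finset.single_le_sum (f := fun x => ‖v x‖ ^ 2) (fun i _ => sq_nonneg _)
      (Finset.mem_univ x)
    have h3 : 0 < ‖v x‖ ^ 2 := by positivity
    linarith
  have h3 : ‖z‖ ^ 2 = 1 := by
    have : (‖z‖ ^ 2 - 1) * ∑ x, ‖v x‖ ^ 2 = 0 := by linarith
    rcases mul_eq_zero.1 this with h | h
    · linarith
    · exact absurd h h2.ne'
  have := norm_nonneg z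
  nlinarith

theorem select {W : Type} [Fintype W] [DecidableEq W] (B : Matrix W W ℂ)
    (hB : B ∈ Matrix.unitaryGroup W ℂ) (L : Matrix W W ℂ) (hL : ∑ x, ∑ c, ‖L x c‖ ^ 2 = 1)
    (V : W → ℝ) (hV : ∀ x, 0 ≤ V x) (δ : ℝ)
    (h : ∀ t : ℕ, ∑ x, (∑ c, ‖(B ^ t * L) x c‖ ^ 2) * V x ≤ δ) :
    ∃ ψ : W → ℂ, ∑ x, ‖ψ x‖ ^ 2 = 1 ∧ (∃ z : ℂ, B.mulVec ψ = z • ψ) ∧
      ∑ x, ‖ψ x‖ ^ 2 * V x ≤ δ := by
  classical
  choose Z₀ F hF hF0 hFs using fun c : W => SEL_decomp B hB (fun x => L x c)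
  let Z : Finset ℂ := (Finset.univ.biUnion Z₀).filter (fun z => ∃ c, F c z ≠ 0)
  have hZ : ∀ z ∈ Z, ‖z‖ = 1 := by
    intro z hz
    obtain ⟨c, hc⟩ := (Finset.mem_filter.1 hz).2
    exact SEL_eig_norm B hB _ z (hF c z) hc
  have hZF : ∀ c, (fun x => L x c) = ∑ z ∈ Z, F c z := by
    intro c
    rw [hFs c]
    have e1 : ∑ z ∈ Z₀ c, F c z = ∑ z ∈ Finset.univ.biUnion Z₀, F c z := by
      apply Finset.sum_subset
      · exact Finset.subset_biUnion_of_mem Z₀ (Finset.mem_univ c)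
      · intro z _ hz; exact hF0 c z hz
    rw [e1]
    symm
    apply Finset.sum_filter_of_ne
    intro z _ hz
    exact ⟨c, hz⟩
  have hpow : ∀ (t : ℕ) (c : W) (z : ℂ), (B ^ t).mulVec (F c z) = z ^ t • F c z := by
    intro t c z
    induction t with
    | zero => simp
    | succ t ih =>
      rw [pow_succ', ← mulVec_mulVec, ih, mulVec_smul, hF, smul_smul, pow_succ]
  have hBt : ∀ (t : ℕ) (x c : W), (B ^ t * L) x c = ∑ z ∈ Z, z ^ t * F c z x := by
    intro t x c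
    have : (B ^ t * L) x c = ((B ^ t).mulVec (fun x => L x c)) x := by
      rw [Matrix.mul_apply]; rfl
    rw [this, hZF c, mulVec_sum, Finset.sum_apply]
    refine Finset.sum_congr rfl fun z _ => ?_
    rw [hpow]; rfl
  -- the limits
  have lim : ∀ g : W → ℝ, Tendsto (fun T : ℕ =>
      (∑ t ∈ range T, ∑ x, (∑ c, ‖(B ^ t * L) x c‖ ^ 2) * g x) / (T : ℝ)) atTop
      (nhds (∑ x, (∑ c, ∑ z ∈ Z, ‖F c z x‖ ^ 2) * g x)) := by
    intro g
    have h1 : Tendsto (fun T : ℕ => ∑ x, (∑ c, (∑ t ∈ range T,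
        ‖∑ z ∈ Z, z ^ t * F c z x‖ ^ 2) / (T : ℝ)) * g x) atTop
        (nhds (∑ x, (∑ c, ∑ z ∈ Z, ‖F c z x‖ ^ 2) * g x)) :=
      tendsto_finsetSum _ fun x _ => (tendsto_finsetSum _ fun c _ =>
        SEL_wiener Z hZ (fun z => F c z x)).mul_const _
    refine h1.congr fun T => ?_
    rw [Finset.sum_comm, Finset.sum_div]
    refine Finset.sum_congr rfl fun x _ => ?_
    rw [← Finset.sum_mul, Finset.sum_comm, ← Finset.sum_div, div_mul_eq_mul_div]
    simp only [hBt]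
  have lim1 := lim (fun _ => 1)
  have limV := lim V
  have hone : ∀ t : ℕ, ∑ x, (∑ c, ‖(B ^ t * L) x c‖ ^ 2) * (1 : ℝ) = 1 := by
    intro t
    simp only [mul_one]
    rw [Finset.sum_comm, ← hL, Finset.sum_comm (f := fun x c => ‖L x c‖ ^ 2)]
    refine Finset.sum_congr rfl fun c _ => ?_
    have := SEL_norm (B ^ t) (pow_mem hB t) (fun x => L x c)
    rw [← this]
    refine Finset.sum_congr rfl fun x _ => ?_
    rw [Matrix.mul_apply]; rfl
  have s1 : ∑ x, (∑ c, ∑ z ∈ Z, ‖F c z x‖ ^ 2) * (1 : ℝ) = 1 := by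
    refine tendsto_nhds_unique lim1 ?_
    apply tendsto_const_nhds.congr'
    filter_upwards [eventually_ge_atTop 1] with T hT
    have : (T : ℝ) ≠ 0 := by exact_mod_cast (by omega : T ≠ 0)
    simp only [hone]
    simp [this]
  have sV : ∑ x, (∑ c, ∑ z ∈ Z, ‖F c z x‖ ^ 2) * V x ≤ δ := by
    refine le_of_tendsto limV ?_
    filter_upwards [eventually_ge_atTop 1] with T hT
    have hT' : (0 : ℝ) < T := by exact_mod_cast hT
    rw [div_le_iff₀ hT']
    calc ∑ t ∈ range T, ∑ x, (∑ c, ‖(B ^ t * L) x c‖ ^ 2) * V x ≤ ∑ t ∈ range T, δ :=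
          Finset.sum_le_sum fun t _ => h t
      _ = δ * T := by simp [mul_comm]
  -- exchange sums
  have ex : ∀ g : W → ℝ, ∑ x, (∑ c, ∑ z ∈ Z, ‖F c z x‖ ^ 2) * g x =
      ∑ c, ∑ z ∈ Z, ∑ x, ‖F c z x‖ ^ 2 * g x := by
    intro g
    simp only [Finset.sum_mul]
    rw [Finset.sum_comm]
    refine Finset.sum_congr rfl fun c _ => ?_
    rw [Finset.sum_comm]
  rw [ex] at s1 sV
  simp only [mul_one] at s1
  by_contra hcon
  push Not at hcon
  have hgt : ∀ c z, F c z ≠ 0 → δ * ∑ x, ‖F c z x‖ ^ 2 < ∑ x, ‖F c z x‖ ^ 2 * V x := by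
    intro c z hne
    have hpos : 0 < ∑ x, ‖F c z x‖ ^ 2 := by
      obtain ⟨x, hx⟩ := Function.ne_iff.1 hne
      have hx' : 0 < ‖F c z x‖ := norm_pos_iff.2 hx
      have := Finset.single_le_sum (f := fun x => ‖F c z x‖ ^ 2) (fun i _ => sq_nonneg _)
        (Finset.mem_univ x)
      have h3 : 0 < ‖F c z x‖ ^ 2 := by positivity
      linarith
    set S := ∑ x, ‖F c z x‖ ^ 2 with hS
    have hs : (0 : ℝ) < Real.sqrt S := Real.sqrt_pos.2 hpos
    let ψ : W → ℂ := fun x => ((Real.sqrt S)⁻¹ : ℂ) * F c z x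
    have hn : ∀ x, ‖ψ x‖ ^ 2 = S⁻¹ * ‖F c z x‖ ^ 2 := by
      intro x
      simp only [ψ, norm_mul, mul_pow, norm_inv, Complex.norm_real, Real.norm_eq_abs, inv_pow,
        sq_abs, Real.sq_sqrt hpos.le]
    have := hcon ψ (by
      simp only [hn]
      rw [← Finset.mul_sum, ← hS, inv_mul_cancel₀ hpos.ne'])
      ⟨z, by
        have e : ψ = ((Real.sqrt S)⁻¹ : ℂ) • F c z := rfl
        rw [e, mulVec_smul, hF, smul_comm]⟩
    simp only [hn, mul_assoc] at this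
    rw [← Finset.mul_sum] at this
    rw [lt_inv_mul_iff₀ hpos] at this
    linarith
  have hge : ∀ c z, δ * ∑ x, ‖F c z x‖ ^ 2 ≤ ∑ x, ‖F c z x‖ ^ 2 * V x := by
    intro c z
    by_cases hne : F c z = 0
    · simp [hne]
    · exact (hgt c z hne).le
  have hex : ∃ c, ∃ z ∈ Z, F c z ≠ 0 := by
    by_contra hno
    push Not at hno
    have : ∑ c, ∑ z ∈ Z, ∑ x, ‖F c z x‖ ^ 2 = 0 := by
      apply Finset.sum_eq_zero; intro c _
      apply Finset.sum_eq_zero; intro z hz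
      simp [hno c z hz]
    rw [this] at s1
    exact zero_ne_one s1
  obtain ⟨c₀, z₀, hz₀, hne⟩ := hex
  have : ∑ c, ∑ z ∈ Z, δ * ∑ x, ‖F c z x‖ ^ 2 < ∑ c, ∑ z ∈ Z, ∑ x, ‖F c z x‖ ^ 2 * V x := by
    apply Finset.sum_lt_sum
    · intro c _
      exact Finset.sum_le_sum fun z _ => hge c z
    · refine ⟨c₀, Finset.mem_univ _, ?_⟩
      apply Finset.sum_lt_sum
      · intro z _; exact hge c₀ z
      · exact ⟨z₀, hz₀, hgt c₀ z₀ hne⟩
  simp only [← Finset.mul_sum] at this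
  rw [s1, mul_one] at this
  linarith

end Pool.Agent.helper65.WB
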